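import Mathlib
import Pool.Agent.W492.KC.Defs

/-!
# Right partial traces in symmetric monoidal rigid categories
-/

set_option autoImplicit false
set_option linter.unusedSectionVars false

open CategoryTheory MonoidalCategory

namespace Pool.Agent.W239.KC

open Pool.Agent.W492.MT (tpow tr)
open Pool.Agent.W492.KC

universe v u

section gen

variable {T : Type u} [Category.{v} T] [MonoidalCategory T]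

theorem mate {X X' Y Y' : T} [hX : ExactPairing X X'] [hY : ExactPairing Y Y'] (f : X ⟶ Y) :
    ∃ f' : Y' ⟶ X', η_ Y Y' ≫ Y ◁ f' = η_ X X' ≫ f ▷ X' ∧
      f' ▷ X ≫ ε_ X X' = Y' ◁ f ≫ ε_ Y Y' := by
  let _ : HasRightDual X := ⟨X'⟩
  let _ : HasRightDual Y := ⟨Y'⟩
  exact ⟨rightAdjointMate f, coevaluation_comp_rightAdjointMate f,
    rightAdjointMate_comp_evaluation f⟩

variable [SymmetricCategory T]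

/-- the partial trace over the right factor, for an exact pairing. -/
def rptE (Z Z' : T) [ExactPairing Z Z'] {A B : T} (g : A ⊗ Z ⟶ B ⊗ Z) : A ⟶ B :=
  (ρ_ A).inv ≫ (A ◁ η_ Z Z') ≫ (α_ A Z Z').inv ≫ (g ▷ Z') ≫ (α_ B Z Z').hom ≫
    (B ◁ ((β_ Z Z').hom ≫ ε_ Z Z')) ≫ (ρ_ B).hom

theorem slide {Z Z' W W' : T} [ExactPairing Z Z'] [ExactPairing W W'] {A B : T} (c : Z ⟶ W)
    (g : A ⊗ W ⟶ B ⊗ Z) : rptE Z Z' ((A ◁ c) ≫ g) = rptE W W' (g ≫ (B ◁ c)) := by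
  obtain ⟨c', h1, h2⟩ := mate (X := Z) (X' := Z') (Y := W) (Y' := W') c
  have h3 : c ▷ W' ≫ (β_ W W').hom ≫ ε_ W W' = Z ◁ c' ≫ (β_ Z Z').hom ≫ ε_ Z Z' := by
    rw [BraidedCategory.braiding_naturality_left_assoc,
      BraidedCategory.braiding_naturality_right_assoc, h2]
  simp only [rptE]
  rw [comp_whiskerRight, comp_whiskerRight, Category.assoc, Category.assoc,
    ← associator_inv_naturality_middle_assoc, ← MonoidalCategory.whiskerLeft_comp_assoc, ← h1,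
    MonoidalCategory.whiskerLeft_comp_assoc, associator_inv_naturality_right_assoc,
    whisker_exchange_assoc, associator_naturality_right_assoc, associator_naturality_middle_assoc,
    ← MonoidalCategory.whiskerLeft_comp_assoc, ← MonoidalCategory.whiskerLeft_comp_assoc, h3]

theorem indep {Z Z' Z'' : T} [ExactPairing Z Z'] [ExactPairing Z Z''] {A B : T}
    (g : A ⊗ Z ⟶ B ⊗ Z) : rptE Z Z' g = rptE Z Z'' g := by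
  have h := slide (Z := Z) (Z' := Z') (W := Z) (W' := Z'') (𝟙 Z) g
  rwa [MonoidalCategory.whiskerLeft_id, MonoidalCategory.whiskerLeft_id, Category.id_comp,
    Category.comp_id] at h

theorem rptE_left (Z Z' : T) [ExactPairing Z Z'] {A A' B : T} (a : A' ⟶ A)
    (g : A ⊗ Z ⟶ B ⊗ Z) : rptE Z Z' ((a ▷ Z) ≫ g) = a ≫ rptE Z Z' g := by
  simp only [rptE]
  rw [comp_whiskerRight, Category.assoc, ← associator_inv_naturality_left_assoc,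
    whisker_exchange_assoc, rightUnitor_inv_naturality_assoc]

theorem rptE_right (Z Z' : T) [ExactPairing Z Z'] {A B B' : T} (b : B ⟶ B')
    (g : A ⊗ Z ⟶ B ⊗ Z) : rptE Z Z' (g ≫ (b ▷ Z)) = rptE Z Z' g ≫ b := by
  simp only [rptE, Category.assoc]
  rw [comp_whiskerRight, Category.assoc, associator_naturality_left_assoc,
    ← whisker_exchange_assoc, ← rightUnitor_naturality]

theorem rptE_whisker (Z Z' : T) [ExactPairing Z Z'] (A : T) (c : Z ⟶ Z) :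
    rptE Z Z' (A ◁ c) = (ρ_ A).inv ≫ (A ◁ (η_ Z Z' ≫ c ▷ Z' ≫ (β_ Z Z').hom ≫ ε_ Z Z')) ≫
      (ρ_ A).hom := by
  simp only [rptE]
  rw [associator_naturality_middle_assoc, Iso.inv_hom_id_assoc]
  simp only [MonoidalCategory.whiskerLeft_comp, Category.assoc]

theorem rptE_sup (Z Z' : T) [ExactPairing Z Z'] (X : T) {A B : T} (d : A ⊗ Z ⟶ B ⊗ Z) :
    rptE Z Z' ((α_ X A Z).hom ≫ (X ◁ d) ≫ (α_ X B Z).inv) = X ◁ rptE Z Z' d := by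
  simp only [rptE]
  monoidal

theorem L1 (X X' Z : T) (e : X ⊗ X' ⟶ 𝟙_ T) :
    X ◁ (β_ Z X').hom ⊗≫ e ▷ Z ⊗≫ 𝟙 Z = 𝟙 _ ⊗≫ (β_ X Z).hom ▷ X' ⊗≫ Z ◁ e ⊗≫ 𝟙 Z := by
  have h1 : (β_ X Z).hom ▷ X' ≫ (β_ Z X).hom ▷ X' = 𝟙 _ := by
    rw [← comp_whiskerRight, SymmetricCategory.symmetry, id_whiskerRight]
  have h2 := BraidedCategory.braiding_naturality_right Z e
  rw [BraidedCategory.braiding_tensor_right_hom, braiding_tensorUnit_right] at h2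
  calc X ◁ (β_ Z X').hom ⊗≫ e ▷ Z ⊗≫ 𝟙 Z
      = 𝟙 _ ⊗≫ (𝟙 ((X ⊗ Z) ⊗ X')) ≫ (𝟙 _ ⊗≫ X ◁ (β_ Z X').hom ⊗≫ e ▷ Z ⊗≫ 𝟙 Z) := by monoidal
    _ = 𝟙 _ ⊗≫ ((β_ X Z).hom ▷ X' ≫ (β_ Z X).hom ▷ X') ≫
          (𝟙 _ ⊗≫ X ◁ (β_ Z X').hom ⊗≫ e ▷ Z ⊗≫ 𝟙 Z) := by rw [h1]
    _ = 𝟙 _ ⊗≫ (β_ X Z).hom ▷ X' ⊗≫ ((((α_ Z X X').inv ≫ (β_ Z X).hom ▷ X' ≫
          (α_ X Z X').hom ≫ X ◁ (β_ Z X').hom ≫ (α_ X X' Z).inv) ≫ e ▷ Z)) ⊗≫ 𝟙 Z := by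
        monoidal
    _ = 𝟙 _ ⊗≫ (β_ X Z).hom ▷ X' ⊗≫ (Z ◁ e ≫ (ρ_ Z).hom ≫ (λ_ Z).inv) ⊗≫ 𝟙 Z := by rw [← h2]
    _ = 𝟙 _ ⊗≫ (β_ X Z).hom ▷ X' ⊗≫ Z ◁ e ⊗≫ 𝟙 Z := by monoidal

theorem L2 (X Z Z' : T) (e : Z' ⊗ Z ⟶ 𝟙_ T) :
    (β_ X Z').hom ▷ Z ⊗≫ Z' ◁ (β_ X Z).hom ⊗≫ e ▷ X ⊗≫ 𝟙 X = 𝟙 _ ⊗≫ X ◁ e ⊗≫ 𝟙 X := by
  have h2 := BraidedCategory.braiding_naturality_right X e
  rw [BraidedCategory.braiding_tensor_right_hom, braiding_tensorUnit_right] at h2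
  calc (β_ X Z').hom ▷ Z ⊗≫ Z' ◁ (β_ X Z).hom ⊗≫ e ▷ X ⊗≫ 𝟙 X
      = 𝟙 _ ⊗≫ ((((α_ X Z' Z).inv ≫ (β_ X Z').hom ▷ Z ≫
          (α_ Z' X Z).hom ≫ Z' ◁ (β_ X Z).hom ≫ (α_ Z' Z X).inv) ≫ e ▷ X)) ⊗≫ 𝟙 X := by
        monoidal
    _ = 𝟙 _ ⊗≫ (X ◁ e ≫ (ρ_ X).hom ≫ (λ_ X).inv) ⊗≫ 𝟙 X := by rw [← h2]
    _ = 𝟙 _ ⊗≫ X ◁ e ⊗≫ 𝟙 X := by monoidal

theorem key (X X' Z Z' : T) [ExactPairing X X'] [ExactPairing Z Z'] :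
    (β_ (X ⊗ Z) (Z' ⊗ X')).hom ≫ ε_ (X ⊗ Z) (Z' ⊗ X') =
      𝟙 _ ⊗≫ X ◁ (((β_ Z Z').hom ≫ ε_ Z Z') ▷ X') ⊗≫ ((β_ X X').hom ≫ ε_ X X') := by
  calc (β_ (X ⊗ Z) (Z' ⊗ X')).hom ≫ ε_ (X ⊗ Z) (Z' ⊗ X')
      = 𝟙 _ ⊗≫ X ◁ (β_ Z Z').hom ▷ X' ⊗≫ (β_ X Z').hom ▷ (Z ⊗ X') ⊗≫
          Z' ◁ (X ◁ (β_ Z X').hom ⊗≫ ((β_ X X').hom ≫ ε_ X X') ▷ Z ⊗≫ 𝟙 Z) ⊗≫ ε_ Z Z' := by
        rw [ExactPairing.tensor_evaluation, BraidedCategory.braiding_tensor_right_hom,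
          BraidedCategory.braiding_tensor_left_hom, BraidedCategory.braiding_tensor_left_hom]
        monoidal
    _ = 𝟙 _ ⊗≫ X ◁ (β_ Z Z').hom ▷ X' ⊗≫ (β_ X Z').hom ▷ (Z ⊗ X') ⊗≫
          Z' ◁ (𝟙 _ ⊗≫ (β_ X Z).hom ▷ X' ⊗≫ Z ◁ ((β_ X X').hom ≫ ε_ X X') ⊗≫ 𝟙 Z) ⊗≫
          ε_ Z Z' := by rw [L1]
    _ = 𝟙 _ ⊗≫ X ◁ (β_ Z Z').hom ▷ X' ⊗≫ ((β_ X Z').hom ▷ Z ⊗≫ Z' ◁ (β_ X Z).hom) ▷ X' ⊗≫
          ((Z' ⊗ Z) ◁ ((β_ X X').hom ≫ ε_ X X') ≫ ε_ Z Z' ▷ 𝟙_ T) ⊗≫ 𝟙 _ := by monoidal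
    _ = 𝟙 _ ⊗≫ X ◁ (β_ Z Z').hom ▷ X' ⊗≫ ((β_ X Z').hom ▷ Z ⊗≫ Z' ◁ (β_ X Z).hom) ▷ X' ⊗≫
          (ε_ Z Z' ▷ (X ⊗ X') ≫ 𝟙_ T ◁ ((β_ X X').hom ≫ ε_ X X')) ⊗≫ 𝟙 _ := by
        rw [whisker_exchange]
    _ = 𝟙 _ ⊗≫ X ◁ (β_ Z Z').hom ▷ X' ⊗≫ ((β_ X Z').hom ▷ Z ⊗≫ Z' ◁ (β_ X Z).hom ⊗≫
          ε_ Z Z' ▷ X ⊗≫ 𝟙 X) ▷ X' ⊗≫ ((β_ X X').hom ≫ ε_ X X') := by monoidal
    _ = 𝟙 _ ⊗≫ X ◁ (β_ Z Z').hom ▷ X' ⊗≫ (𝟙 _ ⊗≫ X ◁ ε_ Z Z' ⊗≫ 𝟙 X) ▷ X' ⊗≫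
          ((β_ X X').hom ≫ ε_ X X') := by rw [L2]
    _ = _ := by monoidal

theorem fubini (X X' Z Z' : T) [ExactPairing X X'] [ExactPairing Z Z'] {A B : T}
    (g : A ⊗ (X ⊗ Z) ⟶ B ⊗ (X ⊗ Z)) :
    rptE (X ⊗ Z) (Z' ⊗ X') g =
      rptE X X' (rptE Z Z' ((α_ A X Z).hom ≫ g ≫ (α_ B X Z).inv)) := by
  simp only [rptE]
  rw [key, ExactPairing.tensor_coevaluation]
  monoidal

theorem rptE_unit {A B : T} (g : A ⊗ 𝟙_ T ⟶ B ⊗ 𝟙_ T) :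
    rptE (𝟙_ T) (𝟙_ T) g = (ρ_ A).inv ≫ g ≫ (ρ_ B).hom := by
  have h1 : η_ (𝟙_ T) (𝟙_ T) = (ρ_ (𝟙_ T)).inv := rfl
  have h2 : ε_ (𝟙_ T) (𝟙_ T) = (ρ_ (𝟙_ T)).hom := rfl
  simp only [rptE]
  rw [braiding_tensorUnit_left, h1, h2]
  monoidal

theorem rptE_braid (X X' : T) [ExactPairing X X'] : rptE X X' (β_ X X).hom = 𝟙 X := by
  have h1 : X ◁ (η_ X X' ≫ (β_ X' X).inv) ≫ (α_ X X' X).inv ≫ ((β_ X X').hom ≫ ε_ X X') ▷ X =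
      (ρ_ X).hom ≫ (λ_ X).inv :=
    @ExactPairing.coevaluation_evaluation _ _ _ X' X (BraidedCategory.exactPairing_swap X X')
  rw [← SymmetricCategory.braiding_swap_eq_inv_braiding] at h1
  have h3 := L1 X X' X ((β_ X X').hom ≫ ε_ X X')
  calc rptE X X' (β_ X X).hom
      = 𝟙 _ ⊗≫ X ◁ η_ X X' ⊗≫ (𝟙 (X ⊗ X ⊗ X') ⊗≫ (β_ X X).hom ▷ X' ⊗≫
          X ◁ ((β_ X X').hom ≫ ε_ X X') ⊗≫ 𝟙 X) := by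
        simp only [rptE]
        monoidal
    _ = 𝟙 _ ⊗≫ X ◁ η_ X X' ⊗≫ (X ◁ (β_ X X').hom ⊗≫ ((β_ X X').hom ≫ ε_ X X') ▷ X ⊗≫ 𝟙 X) := by
        rw [h3]
    _ = 𝟙 _ ⊗≫ (X ◁ (η_ X X' ≫ (β_ X X').hom) ≫ (α_ X X' X).inv ≫
          ((β_ X X').hom ≫ ε_ X X') ▷ X) ⊗≫ 𝟙 X := by monoidal
    _ = 𝟙 X := by
        rw [h1]
        monoidal

end gen

section rpt

variable {T : Type u} [Category.{v} T] [MonoidalCategory T] [SymmetricCategory T]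
  [RightRigidCategory T]

/-- The partial trace over the right factor. -/
def rpt (Z : T) {A B : T} (g : A ⊗ Z ⟶ B ⊗ Z) : A ⟶ B :=
  (ρ_ A).inv ≫ (A ◁ η_ Z Zᘁ) ≫ (α_ A Z Zᘁ).inv ≫ (g ▷ Zᘁ) ≫ (α_ B Z Zᘁ).hom ≫
    (B ◁ ((β_ Z Zᘁ).hom ≫ ε_ Z Zᘁ)) ≫ (ρ_ B).hom

theorem rpt_eq (Z : T) {A B : T} (g : A ⊗ Z ⟶ B ⊗ Z) : rpt Z g = rptE Z Zᘁ g := rfl

theorem rpt_eqE (Z Z' : T) [ExactPairing Z Z'] {A B : T} (g : A ⊗ Z ⟶ B ⊗ Z) :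
    rpt Z g = rptE Z Z' g := by
  rw [rpt_eq]
  exact indep g

theorem rpt_left (Z : T) {A A' B : T} (a : A' ⟶ A) (g : A ⊗ Z ⟶ B ⊗ Z) :
    rpt Z ((a ▷ Z) ≫ g) = a ≫ rpt Z g := rptE_left Z Zᘁ a g

theorem rpt_right (Z : T) {A B B' : T} (b : B ⟶ B') (g : A ⊗ Z ⟶ B ⊗ Z) :
    rpt Z (g ≫ (b ▷ Z)) = rpt Z g ≫ b := rptE_right Z Zᘁ b g

theorem rpt_slide {Z W : T} {A B : T} (c : Z ⟶ W) (g : A ⊗ W ⟶ B ⊗ Z) :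
    rpt Z ((A ◁ c) ≫ g) = rpt W (g ≫ (B ◁ c)) := slide c g

theorem rpt_cyc (Z : T) {A B : T} (c : Z ⟶ Z) (g : A ⊗ Z ⟶ B ⊗ Z) :
    rpt Z ((A ◁ c) ≫ g) = rpt Z (g ≫ (B ◁ c)) := slide c g

theorem rpt_whisker (Z : T) (A : T) (c : Z ⟶ Z) :
    rpt Z (A ◁ c) = (ρ_ A).inv ≫ (A ◁ tr c) ≫ (ρ_ A).hom := rptE_whisker Z Zᘁ A c

theorem rpt_sup (Z X : T) {A B : T} (d : A ⊗ Z ⟶ B ⊗ Z) :
    rpt Z ((α_ X A Z).hom ≫ (X ◁ d) ≫ (α_ X B Z).inv) = X ◁ rpt Z d := rptE_sup Z Zᘁ X d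

theorem rpt_fubini (X Z : T) {A B : T} (g : A ⊗ (X ⊗ Z) ⟶ B ⊗ (X ⊗ Z)) :
    rpt (X ⊗ Z) g = rpt X (rpt Z ((α_ A X Z).hom ≫ g ≫ (α_ B X Z).inv)) := by
  rw [rpt_eqE (X ⊗ Z) (Zᘁ ⊗ Xᘁ), fubini]
  rfl

theorem rpt_braid (X : T) : rpt X (β_ X X).hom = 𝟙 X := rptE_braid X Xᘁ

theorem rpt_swp {X Z : T} (d : X ⊗ Z ⟶ X ⊗ Z) :
    rpt (X ⊗ Z) (swp X Z ≫ (X ◁ d)) = rpt Z d := by
  have h1 : (α_ X X Z).hom ≫ (swp X Z ≫ (X ◁ d)) ≫ (α_ X X Z).inv =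
      ((β_ X X).hom ▷ Z) ≫ ((α_ X X Z).hom ≫ (X ◁ d) ≫ (α_ X X Z).inv) := by
    simp only [swp, Category.assoc, Iso.hom_inv_id_assoc]
  rw [rpt_fubini, h1, rpt_left, rpt_sup, ← rpt_cyc, BraidedCategory.braiding_naturality_right,
    rpt_right, rpt_braid, Category.id_comp]

theorem rpt_unit {A B : T} (g : A ⊗ 𝟙_ T ⟶ B ⊗ 𝟙_ T) :
    rpt (𝟙_ T) g = (ρ_ A).inv ≫ g ≫ (ρ_ B).hom := by
  rw [rpt_eqE (𝟙_ T) (𝟙_ T), rptE_unit]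

theorem tr_cyc {X Y : T} (f : X ⟶ Y) (g : Y ⟶ X) : tr (f ≫ g) = tr (g ≫ f) := by
  obtain ⟨f', h1, h2⟩ := mate (X := X) (X' := Xᘁ) (Y := Y) (Y' := Yᘁ) f
  have h3 : f ▷ Yᘁ ≫ (β_ Y Yᘁ).hom ≫ ε_ Y Yᘁ = X ◁ f' ≫ (β_ X Xᘁ).hom ≫ ε_ X Xᘁ := by
    rw [BraidedCategory.braiding_naturality_left_assoc,
      BraidedCategory.braiding_naturality_right_assoc, h2]
  simp only [tr]
  rw [comp_whiskerRight, comp_whiskerRight, Category.assoc, Category.assoc, h3,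
    ← Category.assoc (η_ X Xᘁ), ← h1, Category.assoc, whisker_exchange_assoc]

variable [Preadditive T] [MonoidalPreadditive T]

theorem rpt_add (Z : T) {A B : T} (g h : A ⊗ Z ⟶ B ⊗ Z) : rpt Z (g + h) = rpt Z g + rpt Z h := by
  simp only [rpt, MonoidalPreadditive.add_whiskerRight, Preadditive.add_comp, Preadditive.comp_add]

/-- The right partial trace as a homomorphism. -/
def rptH (Z A B : T) : (A ⊗ Z ⟶ B ⊗ Z) →+ (A ⟶ B) := AddMonoidHom.mk' (rpt Z) (rpt_add Z)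

theorem rptH_apply (Z : T) {A B : T} (g : A ⊗ Z ⟶ B ⊗ Z) : rptH Z A B g = rpt Z g := rfl

end rpt

end Pool.Agent.W239.KC
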